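import Mathlib

namespace Pool.Agent.Results.MP_cda11a_an.Counter

open Set Filter Topology OnePoint

/-- the `(1,2)`-shadowing property, entourages being neighbourhoods of the diagonal. -/
def Shadow12 {X : Type*} [TopologicalSpace X] (G : Set (X × X)) : Prop :=
  ∀ U ∈ 𝓝ˢ (diagonal X), ∃ V ∈ 𝓝ˢ (diagonal X), ∀ x : ℕ → X,
    (∀ m y, (x m, y) ∈ G → (y, x (m + 1)) ∈ V) →
      ∃ y : ℕ → X, (∀ m, (y m, y (m + 1)) ∈ G) ∧ ∀ m, (y m, x m) ∈ U

/-- `(x,y) ∈ Gⁿ`. -/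
def Iter {X : Type*} (G : Set (X × X)) (n : ℕ) (x y : X) : Prop :=
  ∃ p : ℕ → X, p 0 = x ∧ p n = y ∧ ∀ k < n, (p k, p (k + 1)) ∈ G

abbrev Z := OnePoint ℤ

def sh (c : ℤ) : Z → Z := OnePoint.map (· + c)
def ng : Z → Z := OnePoint.map (fun a => -a)

lemma sh_cont (c : ℤ) : Continuous (sh c) := (Homeomorph.addRight c).onePointCongr.continuous
lemma ng_cont : Continuous ng := (Homeomorph.neg ℤ).onePointCongr.continuous

def P (s : Set ℤ) : Set Z := {k | ∀ a : ℤ, k = a → a ∈ s}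

lemma P_closed (s : Set ℤ) : IsClosed (P s) :=
  (isClosed_iff_of_mem (fun a h => by cases h)).2 (isClosed_discrete _)

def G : Set ((Z × Z) × (Z × Z)) :=
  {p | p.2.2 = ng p.1.2 ∧ ((p.1.2 ∈ P (Ioi 0) ∧ p.2.1 = sh 1 p.1.1) ∨
    (p.1.2 ∈ P (Iio 0) ∧ p.2.1 = sh (-1) p.1.1) ∨ (p.1.2 = (0 : ℤ) ∧ p.2.1 = p.1.1))}

lemma G_closed : IsClosed G := by
  have := sh_cont
  have := ng_cont
  refine (isClosed_eq (by fun_prop) (by fun_prop)).inter (IsClosed.union ?_ (IsClosed.union ?_ ?_))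
  · exact ((P_closed _).preimage (by fun_prop)).inter (isClosed_eq (by fun_prop) (by fun_prop))
  · exact ((P_closed _).preimage (by fun_prop)).inter (isClosed_eq (by fun_prop) (by fun_prop))
  · exact (isClosed_eq (by fun_prop) (by fun_prop)).inter (isClosed_eq (by fun_prop) (by fun_prop))

lemma sh_sh (n : Z) (c : ℤ) : sh (-c) (sh c n) = n := by
  induction n using OnePoint.rec with
  | infty => rfl
  | coe a => simp [sh]

lemma two (x : Z × Z) : ∃ y, (x, y) ∈ G ∧ (y, x) ∈ G := by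
  obtain ⟨n, k⟩ := x
  have e1 := sh_sh n 1
  have e2 := sh_sh n (-1)
  rw [neg_neg] at e2
  induction k using OnePoint.rec with
  | infty =>
    exact ⟨(sh 1 n, ∞), ⟨rfl, Or.inl ⟨fun a h => (by cases h), rfl⟩⟩,
      ⟨rfl, Or.inr (Or.inl ⟨fun a h => (by cases h), e1.symm⟩)⟩⟩
  | coe k =>
    rcases lt_trichotomy k 0 with h | h | h
    · refine ⟨(sh (-1) n, (-k : ℤ)), ⟨rfl, Or.inr (Or.inl ⟨fun a ha => ?_, rfl⟩)⟩,
        ⟨by simp [ng], Or.inl ⟨fun a ha => ?_, e2.symm⟩⟩⟩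
      · rw [← coe_eq_coe.1 ha]; exact h
      · rw [← coe_eq_coe.1 ha]; simpa using h
    · subst h
      exact ⟨(n, (0 : ℤ)), ⟨by simp [ng], Or.inr (Or.inr ⟨rfl, rfl⟩)⟩,
        ⟨by simp [ng], Or.inr (Or.inr ⟨rfl, rfl⟩)⟩⟩
    · refine ⟨(sh 1 n, (-k : ℤ)), ⟨rfl, Or.inl ⟨fun a ha => ?_, rfl⟩⟩,
        ⟨by simp [ng], Or.inr (Or.inl ⟨fun a ha => ?_, e1.symm⟩)⟩⟩
      · rw [← coe_eq_coe.1 ha]; exact h
      · rw [← coe_eq_coe.1 ha]; simpa using h

def Uj (j : ℤ) : Set ((Z × Z) × (Z × Z)) := {p | p.1.1 = j ↔ p.2.1 = j}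

lemma Uj_mem (j : ℤ) : Uj j ∈ 𝓝ˢ (diagonal (Z × Z)) := by
  have hc : IsClopen ({(j : Z)} : Set Z) :=
    ⟨isClosed_singleton, by
      rw [← image_singleton]; exact isOpen_image_coe.2 (isOpen_discrete _)⟩
  refine IsOpen.mem_nhdsSet ?_ |>.2 (fun p hp => by simp [Uj, mem_diagonal_iff.1 hp])
  have e : Uj j = ((fun p => p.1.1) ⁻¹' {(j : Z)} ∩ (fun p => p.2.1) ⁻¹' {(j : Z)}) ∪
      ((fun p => p.1.1) ⁻¹' {(j : Z)}ᶜ ∩ (fun p => p.2.1) ⁻¹' {(j : Z)}ᶜ) := by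
    ext p; simp only [Uj, mem_setOf_eq, mem_union, mem_inter_iff, mem_preimage, mem_compl_iff,
      mem_singleton_iff]; tauto
  rw [e]
  exact ((hc.2.preimage (by fun_prop)).inter (hc.2.preimage (by fun_prop))).union
    ((hc.compl.2.preimage (by fun_prop)).inter (hc.compl.2.preimage (by fun_prop)))

lemma fail : ¬ Shadow12 G := by
  intro h
  obtain ⟨V, hV, hs⟩ := h _ (inter_mem (Uj_mem 0) (inter_mem (Uj_mem 1) (Uj_mem (-1))))
  have := sh_cont
  have := ng_cont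
  have h1 : ∀ᶠ k in 𝓝 (∞ : Z), ∀ n ∈ (univ : Set Z), (((n, ng k), (n, k)) : (Z × Z) × Z × Z) ∈ V :=
    isCompact_univ.eventually_forall_of_forall_eventually fun n _ =>
      (by fun_prop : Continuous fun q : Z × Z => (((q.2, ng q.1), (q.2, q.1)) : (Z × Z) × Z × Z)).continuousAt
        (mem_nhdsSet_iff_forall.1 hV _ rfl)
  have h2 : ∀ᶠ k in 𝓝 (∞ : Z), (((sh 1 k, ng k), (ng k, k)) : (Z × Z) × Z × Z) ∈ V :=
    (by fun_prop : Continuous fun k : Z => (((sh 1 k, ng k), (ng k, k)) : (Z × Z) × Z × Z)).continuousAt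
      (mem_nhdsSet_iff_forall.1 hV _ rfl)
  have ht : Tendsto (fun k : ℕ => ((k : ℤ) : Z)) atTop (𝓝 ∞) := by
    refine tendsto_coe_infty.comp ?_
    rw [coclosedCompact_eq_cocompact, cocompact_eq_atBot_atTop]
    exact tendsto_natCast_atTop_atTop.mono_right le_sup_right
  obtain ⟨k, ⟨hk1, hk2⟩, hk⟩ := ((ht.eventually (h1.and h2)).and (eventually_ge_atTop 1)).exists
  let a : ℕ → ℤ := fun m => if m ≤ k then m else m - 2 * k - 1
  obtain ⟨y, hy, hU⟩ := hs (fun m => (a m, (k : ℤ))) (by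
    rintro m ⟨y1, y2⟩ ⟨e2, e1⟩
    simp only at e1 e2
    subst e2
    rcases e1 with ⟨-, rfl⟩ | ⟨e, -⟩ | ⟨e, -⟩
    · by_cases hm : m = k
      · have : a (m + 1) = -k := by simp only [a]; rw [if_neg (by omega)]; omega
        have e : a m = k := by simp only [a]; rw [if_pos (by omega)]; omega
        rw [this, e]; exact hk2
      · have : a (m + 1) = a m + 1 := by simp only [a]; split_ifs <;> omega
        rw [this]; exact hk1 _ trivial
    · have := e _ rfl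
      simp only [mem_Iio] at this; omega
    · have := coe_eq_coe.1 e; omega)
  have key : ∀ m, m + 1 ≤ 2 * k → ∃ b : ℤ, 1 ≤ b ∧ (y (m + 1)).1 = b := by
    intro m
    induction m with
    | zero =>
      intro _
      refine ⟨1, le_rfl, (hU 1).2.1.2 ?_⟩
      simp only [a]; rw [if_pos hk]; rfl
    | succ m ih =>
      intro hm
      obtain ⟨b, hb, e⟩ := ih (by omega)
      have h0 : (y (m + 1 + 1)).1 ≠ (0 : ℤ) := fun h0 => by
        have := coe_eq_coe.1 ((hU _).1.1 h0)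
        simp only [a] at this; split_ifs at this <;> omega
      rcases (hy (m + 1)).2 with ⟨-, e'⟩ | ⟨-, e'⟩ | ⟨-, e'⟩
      · exact ⟨b + 1, by omega, by rw [e', e]; rfl⟩
      · have e3 : (y (m + 1 + 1)).1 = (b + -1 : ℤ) := by rw [e', e]; rfl
        refine ⟨b + -1, ?_, e3⟩
        by_contra hh
        exact h0 (by rw [e3]; congr 1; omega)
      · exact ⟨b, hb, e'.trans e⟩
  obtain ⟨b, hb, e⟩ := key (2 * k - 1) (by omega)
  have := (hU (2 * k - 1 + 1)).2.2.2 (by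
    simp only [a]; rw [if_neg (by omega)]; congr 1; omega)
  have := coe_eq_coe.1 (e.symm.trans this)
  omega

theorem result : ∃ (X : Type) (_ : TopologicalSpace X), Nonempty X ∧ CompactSpace X ∧ T2Space X ∧
    TotallyDisconnectedSpace X ∧ ∃ G : Set (X × X), G.Nonempty ∧ IsClosed G ∧
      (∀ x, Iter G 2 x x) ∧ ¬ Shadow12 G := by
  refine ⟨Z × Z, inferInstance, inferInstance, inferInstance, inferInstance, inferInstance, G, ?_,
    G_closed, fun x => ?_, fail⟩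
  · obtain ⟨y, h, -⟩ := two (∞, ∞)
    exact ⟨_, h⟩
  · obtain ⟨y, h1, h2⟩ := two x
    refine ⟨fun n => if n = 1 then y else x, rfl, rfl, fun k hk => ?_⟩
    interval_cases k
    · exact h1
    · exact h2

end Pool.Agent.Results.MP_cda11a_an.Counter
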